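import Pool.Agent.H41.VSQ.Final

/-!
# Benson's conjecture on very strongly quasi-regular parameters fails at the prime two

Definitions used in the statement (all in `Pool/Agent/H41/VSQ/Stmt.lean`): `VSQR.IsCohomologyRing` says
that a graded algebra is the cohomology ring `H^*(G, k)`, by means of homogeneous cochains and
the cup product (`VSQR.cup`, `VSQR.del`, `VSQR.uno`), and `VSQR.IsVSQR`
is the definition of a very strongly quasi-regular system of
parameters.
-/

set_option autoImplicit false

namespace Pool.Agent.Results.MP_f7c749_al.NoVSQRParameters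

open VSQR

/-- There is a finite group `G` (of order `2 ^ 11`) such that for every field `k` of characteristic
two the cohomology ring `H^*(G, k)` contains no very strongly quasi-regular system of
parameters. -/
theorem result : ∃ (G : Type) (_ : Group G) (_ : Finite G), Nat.card G = 2 ^ 11 ∧
    ∀ (k : Type) [Field k] [CharP k 2],
      (∃ (A : Type) (_ : CommRing A) (_ : Algebra k A) (𝒜 : ℕ → Submodule k A)
        (cl : (List G → k) → A), IsCohomologyRing k G 𝒜 cl) ∧
      ∀ (A : Type) [CommRing A] [Algebra k A] (𝒜 : ℕ → Submodule k A)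
        (cl : (List G → k) → A), IsCohomologyRing k G 𝒜 cl →
        ¬ ∃ (r : ℕ) (h : ℕ → A) (e : ℕ → ℕ), IsVSQR k 𝒜 r h e := by
  refine ⟨GG, inferInstance, inferInstance, card_GG, fun k _ _ => ⟨?_, ?_⟩⟩
  · obtain ⟨cl, hcl⟩ := model_exists (G := GG) (k := k)
    exact ⟨Coh k (⊤ : Subgroup GG), inferInstance, inferInstance, _, cl, hcl⟩
  · rintro A _ _ 𝒜 cl hcl ⟨r, h, e, hv⟩
    exact model_main 𝒜 cl hcl r h e hv

end Pool.Agent.Results.MP_f7c749_al.NoVSQRParameters
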